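import Mathlib
import Pool.Agent.H84.AmDefs
import Pool.Agent.H84.AmEx

set_option autoImplicit false

namespace Pool.Agent.Results.MP_6117a1_gt.Counter

open Pool.Agent.H84.AmDefs

universe u

theorem result : ∃ A : Set (NNReal → NNReal), id ∈ A ∧ (∀ f ∈ A, ∀ g ∈ A, f ∘ g ∈ A) ∧
    (∀ f ∈ A, Amenable f) ∧
    ∀ X : (Y : Type u) → (Y → Y → NNReal) → Prop,
      (∀ (Y : Type u) (ρ : Y → Y → NNReal), X Y ρ → Nonempty Y ∧ IsMetric ρ) → Pres X ≠ A :=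
  ⟨Pool.Agent.H84.AmEx.A, ⟨Function.bijective_id, rfl⟩,
    fun f hf g hg => ⟨hf.1.comp hg.1, by rw [Function.comp_apply, hg.2, hf.2]⟩,
    fun _ hf => Pool.Agent.H84.AmEx.A_am hf, Pool.Agent.H84.AmEx.main⟩

end Pool.Agent.Results.MP_6117a1_gt.Counter
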